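import Mathlib
import Pool.Agent.K9h85.DG.Upper
import Pool.Agent.K9h85.DG.Lower

/-!
MP_55ef7c_ag, Q1 (disproof).

Over every field `K` of characteristic different from `2` and `3` there is a dominant (in fact
birational) rational map `f : ℙ³ ⇢ ℙ³` with `deg (fⁿ) ≍ n⁴`.  Its dynamical degree is `1`, so
`deg (fⁿ) ≍ n ^ ℓ * δ ^ n` holds for `ℓ = 4` only, and for no `ℓ ∈ {0, 1, 2, 3}`.

The map: triples `(P₁, P₂, P₃)` of points on a common curve `y² = x³ + c` (`c` varying), taken up to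
the scaling `(x, y) ↦ (μ² x, μ³ y)`, are parametrised birationally by `ℙ³` via
`[x₁ (y₁ - y₃) : x₂ (y₁ - y₃) : x₃ (y₁ - y₃) : x₁ (y₁ - y₂)]`, and `f` is
`(P₁, P₂, P₃) ↦ (P₁, P₁ + P₂, P₂ + P₃)` in these coordinates.  Hence `fⁿ` is
`(P₁, P₂ + n P₁, P₃ + n P₂ + (n choose 2) P₁)`, and the height of the last point grows like `n⁴`.

The definitions of rational maps, dominance and iterates are those of `Pool.Agent.H905R3.RatMap`.
-/

set_option autoImplicit false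

namespace Pool.Agent.Results.MP_55ef7c_ag.GrowthExponentFour

open Filter Topology Pool.Agent.H905R3 Pool.Agent.K9h85.DG

/-- `e` is the degree sequence of `f`: for every `n` there is an `n`-th iterate of `f` (written
without common factors), and every one has degree `e n`. -/
def IsDegreeSequence {K : Type*} [Field K] {N : ℕ} (f : RatMap K N) (e : ℕ → ℕ) : Prop :=
  ∀ n, (∃ g, f.IsIterate n g) ∧ ∀ g, f.IsIterate n g → g.degree = e n

/-- `F ≍ G`: there are constants `c₁, c₂, c₃ > 0` with `c₁ F n ≤ G n ≤ c₂ F n` for all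
`n ≥ c₃`. -/
def Comparable (F G : ℕ → ℝ) : Prop :=
  ∃ c₁ c₂ c₃ : ℝ, 0 < c₁ ∧ 0 < c₂ ∧ 0 < c₃ ∧
    ∀ n : ℕ, c₃ ≤ (n : ℝ) → c₁ * F n ≤ G n ∧ G n ≤ c₂ * F n

/-- `δ` is the limit of `e n ^ (1 / n)`: the dynamical degree of a map with degree
sequence `e`. -/
def IsDynamicalDegree (e : ℕ → ℕ) (δ : ℝ) : Prop :=
  Tendsto (fun n : ℕ => (e n : ℝ) ^ ((1 : ℝ) / n)) atTop (𝓝 δ)

/-- Polynomial growth forces dynamical degree one. -/
theorem dynamicalDegree_one (e : ℕ → ℕ) (r s : ℕ) (hs : 0 < s)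
    (hr : ∀ n, n ^ 4 ≤ r * e n) (he : ∀ n, 0 < n → e n ≤ s * n ^ 4) :
    IsDynamicalDegree e 1 := by
  have h1 : Tendsto (fun n : ℕ => (n : ℝ) ^ ((4 : ℝ) / (1 * n + 0))) atTop (𝓝 1) :=
    (tendsto_rpow_div_mul_add 4 1 0 (by norm_num)).comp tendsto_natCast_atTop_atTop
  have h2 : Tendsto (fun n : ℕ => (s : ℝ) ^ ((1 : ℝ) / n)) atTop (𝓝 1) := by
    have h0 : Continuous fun x : ℝ => (s : ℝ) ^ x :=
      Real.continuous_const_rpow (by exact_mod_cast hs.ne')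
    have := (h0.tendsto 0).comp (tendsto_const_div_atTop_nhds_zero_nat (1 : ℝ))
    rw [Real.rpow_zero] at this
    exact this
  have h3 := h2.mul h1
  rw [mul_one] at h3
  refine tendsto_of_tendsto_of_tendsto_of_le_of_le' tendsto_const_nhds h3 ?_ ?_
  · filter_upwards [eventually_gt_atTop 0] with n hn
    have : 0 < e n := by
      rcases Nat.eq_zero_or_pos (e n) with h | h
      · have := hr n
        rw [h, mul_zero] at this
        have := Nat.pow_pos (n := 4) hn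
        omega
      · exact h
    exact Real.one_le_rpow (by exact_mod_cast this) (by positivity)
  · filter_upwards [eventually_gt_atTop 0] with n hn
    have h4 : (e n : ℝ) ≤ s * (n : ℝ) ^ 4 := by exact_mod_cast he n hn
    have hn' : (0 : ℝ) < n := by exact_mod_cast hn
    calc (e n : ℝ) ^ ((1 : ℝ) / n) ≤ (s * (n : ℝ) ^ 4) ^ ((1 : ℝ) / n) :=
          Real.rpow_le_rpow (by positivity) h4 (by positivity)
      _ = (s : ℝ) ^ ((1 : ℝ) / n) * ((n : ℝ) ^ 4) ^ ((1 : ℝ) / n) :=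
          Real.mul_rpow (by positivity) (by positivity)
      _ = (s : ℝ) ^ ((1 : ℝ) / n) * (n : ℝ) ^ ((4 : ℝ) / (1 * n + 0)) := by
          rw [← Real.rpow_natCast (n : ℝ) 4, ← Real.rpow_mul hn'.le]
          congr 2
          push_cast
          ring

theorem exponent_eq_four {ℓ : ℕ} {a b c : ℝ} (ha : 0 < a)
    (h : ∀ n : ℕ, c ≤ (n : ℝ) → a * (n : ℝ) ^ 4 ≤ (n : ℝ) ^ ℓ ∧ (n : ℝ) ^ ℓ ≤ b * (n : ℝ) ^ 4) :
    ℓ = 4 := by
  obtain ⟨n, hn⟩ := exists_nat_gt (max (max c 1) (max a⁻¹ b))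
  have h1 : c ≤ n := ((le_max_left _ _).trans (le_max_left _ _)).trans hn.le
  have h2 : (1 : ℝ) < n := lt_of_le_of_lt ((le_max_right _ _).trans (le_max_left _ _)) hn
  have h3 : a⁻¹ < n := lt_of_le_of_lt ((le_max_left _ _).trans (le_max_right _ _)) hn
  have h4 : b < n := lt_of_le_of_lt ((le_max_right _ _).trans (le_max_right _ _)) hn
  obtain ⟨h5, h6⟩ := h n h1
  have hp : (0 : ℝ) < (n : ℝ) ^ 4 := by positivity
  have hp3 : (0 : ℝ) < (n : ℝ) ^ 3 := by positivity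
  rcases lt_trichotomy ℓ 4 with hl | hl | hl
  · exfalso
    have h7 : (n : ℝ) ^ ℓ ≤ (n : ℝ) ^ 3 := pow_le_pow_right₀ h2.le (by omega)
    have h8 : (1 : ℝ) < a * n := by
      have := mul_lt_mul_of_pos_left h3 ha
      rwa [mul_inv_cancel₀ ha.ne'] at this
    have h9 : a * (n : ℝ) ^ 4 = (a * n) * (n : ℝ) ^ 3 := by ring
    have h10 := mul_lt_mul_of_pos_right h8 hp3
    linarith
  · exact hl
  · exfalso
    have h7 : (n : ℝ) ^ 5 ≤ (n : ℝ) ^ ℓ := pow_le_pow_right₀ h2.le (by omega)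
    have h9 : (n : ℝ) ^ 5 = n * (n : ℝ) ^ 4 := by ring
    have h10 := mul_lt_mul_of_pos_right h4 hp
    linarith

/-- **Disproof of Q1.** Over every field of characteristic `≠ 2, 3` there is a dominant rational
self-map of `ℙ³` with `deg (fⁿ) ≍ n⁴` and dynamical degree `1`; therefore
`deg (fⁿ) ≍ n ^ ℓ * δ ^ n` forces `ℓ = 4`, and no integer `0 ≤ ℓ ≤ 3` works. -/
theorem result (K : Type*) [Field K] (h2 : (2 : K) ≠ 0) (h3 : (3 : K) ≠ 0) :
    ∃ (f : RatMap K 3) (e : ℕ → ℕ), f.Dominant ∧ IsDegreeSequence f e ∧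
      Comparable (fun n => (e n : ℝ)) (fun n => (n : ℝ) ^ 4) ∧ IsDynamicalDegree e 1 ∧
      (∀ (δ : ℝ) (ℓ : ℕ), IsDynamicalDegree e δ →
        Comparable (fun n => (e n : ℝ)) (fun n => (n : ℝ) ^ ℓ * δ ^ n) → ℓ = 4) ∧
      ¬ ∃ (δ : ℝ) (ℓ : ℕ), IsDynamicalDegree e δ ∧ ℓ ≤ 3 ∧
        Comparable (fun n => (e n : ℝ)) (fun n => (n : ℝ) ^ ℓ * δ ^ n) := by
  classical
  obtain ⟨c0, f, hc0, hf⟩ := exists_map (K := K) h2 h3
  have hd := dominant_map h2 h3 c0 f hf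
  obtain ⟨r, hr0, hr⟩ := lower_bound h2 h3 c0 f hf
  obtain ⟨s, hs0, hs⟩ := upper_bound h2 h3 c0 hc0 f hf
  choose g hg using fun n => exists_iterate f hd n
  have hlow : ∀ n, n ^ 4 ≤ r * (g n).degree := fun n => hr n _ (hg n)
  have hup : ∀ n, 0 < n → (g n).degree ≤ s * n ^ 4 := fun n hn => hs n _ hn (hg n)
  have hone : IsDynamicalDegree (fun n => (g n).degree) 1 :=
    dynamicalDegree_one _ r s hs0 hlow hup
  have hr0' : (0 : ℝ) < r := by exact_mod_cast hr0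
  have hs0' : (0 : ℝ) < s := by exact_mod_cast hs0
  have hlow' : ∀ n : ℕ, (n : ℝ) ^ 4 ≤ r * ((g n).degree : ℝ) := fun n => by
    exact_mod_cast hlow n
  have hup' : ∀ n : ℕ, 0 < n → ((g n).degree : ℝ) ≤ s * (n : ℝ) ^ 4 := fun n hn => by
    exact_mod_cast hup n hn
  have key : ∀ (δ : ℝ) (ℓ : ℕ), IsDynamicalDegree (fun n => (g n).degree) δ →
      Comparable (fun n => ((g n).degree : ℝ)) (fun n => (n : ℝ) ^ ℓ * δ ^ n) → ℓ = 4 := by
    rintro δ ℓ hδ ⟨c₁, c₂, c₃, p₁, p₂, p₃, h⟩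
    have hδ1 : δ = 1 := tendsto_nhds_unique hδ hone
    subst hδ1
    refine exponent_eq_four (a := c₁ / r) (b := c₂ * s) (c := max c₃ 1) (by positivity)
      fun n hn => ?_
    obtain ⟨q₁, q₂⟩ := h n ((le_max_left _ _).trans hn)
    have hn1 : (1 : ℝ) ≤ n := (le_max_right _ _).trans hn
    have hn0 : 0 < n := by exact_mod_cast lt_of_lt_of_le one_pos hn1
    simp only [one_pow, mul_one] at q₁ q₂
    refine ⟨le_trans ?_ q₁, q₂.trans ?_⟩
    · rw [div_mul_eq_mul_div, div_le_iff₀ hr0', mul_assoc]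
      exact mul_le_mul_of_nonneg_left ((hlow' n).trans (le_of_eq (mul_comm _ _))) p₁.le
    · rw [mul_assoc]
      exact mul_le_mul_of_nonneg_left (hup' n hn0) p₂.le
  refine ⟨f, fun n => (g n).degree, hd, fun n => ⟨⟨g n, hg n⟩, fun g' hg' => ?_⟩,
    ⟨1 / s, r, 1, by positivity, hr0', one_pos, fun n hn => ⟨?_, hlow' n⟩⟩, hone, key, ?_⟩
  · exact hg'.degree_eq (hg n)
  · have hn0 : 0 < n := by exact_mod_cast lt_of_lt_of_le one_pos hn
    rw [div_mul_eq_mul_div, one_mul, div_le_iff₀ hs0']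
    exact (hup' n hn0).trans (le_of_eq (mul_comm _ _))
  · rintro ⟨δ, ℓ, hδ, hl, hc⟩
    have := key δ ℓ hδ hc
    omega

end Pool.Agent.Results.MP_55ef7c_ag.GrowthExponentFour
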